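import Pool.Agent.J4H30.WR.Esb

set_option autoImplicit false

/-!
# Exponential sums with `β (z ^ k + l z ^ g)`, the range `X ^ (-1/2) ≤ |β| ≤ X` (helper30)

Short blocks of length `X B ^ (-2/(2r+1))`, `B = |β| X ^ g`, `r = k + 4`: in a block `z ^ g` is replaced by its Taylor
polynomial of degree `r`; the leading coefficient of the phase comes from `z ^ g` alone, and Weyl's inequality (inverse
form) applies.
-/

namespace Pool.Agent.J4H30.WS

open Finset Filter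
open Pool.Agent.J4H7.WE (ff ff_succ ff_ne)
open Pool.Agent.J4H7.WP (SP pow_deriv)
open Pool.Agent.Helper153.Vdc (ee ee_norm)
open Pool.Agent.H373R2.NB (Ph IW IW_all Ph_poly)
open Pool.Agent.J4H30.WR (Ph_block taylor_pow ee_sub_le powid blocks)

/-- **one block** -/
lemma block (k : ℕ) (hk : 2 ≤ k) {g : ℝ} (hg1 : 1 < g) (hgk : g < k) (hgn : ∀ n : ℕ, g ≠ n) {l : ℝ} (hl : 0 < l) :
    ∃ τ : ℝ, 0 < τ ∧ τ ≤ 1 / (2 * ((k + 4 : ℕ) : ℝ) + 1) ∧ ∃ C : ℝ, 1 ≤ C ∧ ∃ X0 : ℝ, 2 ≤ X0 ∧ ∀ X : ℝ, X0 ≤ X → ∀ β : ℝ,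
      X ^ (-(1 / 2 : ℝ)) ≤ |β| → |β| ≤ X → ∀ L : ℕ,
      L = ⌊X * (|β| * X ^ g) ^ (-(2 / (2 * ((k + 4 : ℕ) : ℝ) + 1)))⌋₊ →
      1 ≤ L ∧ (L : ℝ) ≤ X ^ (1 - 1 / (2 * ((k + 4 : ℕ) : ℝ) + 1)) ∧
      ∀ z0 : ℕ, 4 * X ≤ z0 → (z0 : ℝ) ≤ 65 * X →
        ‖∑ n ∈ range L, ee (β * (((z0 : ℝ) + n) ^ k + l * ((z0 : ℝ) + n) ^ g))‖ ≤ C * L * X ^ (-τ) := by
  set r : ℕ := k + 4 with hr
  have hrk : (r : ℝ) = k + 4 := by rw [hr]; push_cast; ring
  have hk2 : (2 : ℝ) ≤ k := by exact_mod_cast hk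
  obtain ⟨c, m, hc, hI⟩ := IW_all r (by omega)
  set w : ℝ := 2 * (r : ℝ) + 1 with hw
  have hw13 : 13 ≤ w := by rw [hw, hrk]; linarith
  have hw0 : 0 < w := by linarith
  set s : ℝ := 2 / w with hs
  have hs0 : 0 < s := by positivity
  set e : ℝ := 1 / (4 * w) with he
  have he0 : 0 < e := by positivity
  have he1 : e ≤ 1 := by
    rw [he, div_le_one (by positivity)]
    linarith
  set τ : ℝ := e / (m + 1) with hτ
  have hm0 : (0 : ℝ) ≤ m := Nat.cast_nonneg m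
  have hτ0 : 0 < τ := by positivity
  have hτe : τ ≤ e := by
    rw [hτ]
    exact div_le_self he0.le (by linarith)
  have hτm : τ * m ≤ e := by
    rw [hτ, div_mul_eq_mul_div, div_le_iff₀ (by positivity)]
    nlinarith
  have he4 : e = 1 / w / 4 := by rw [he]; field_simp
  have hew : e ≤ 1 / w := by
    rw [he4]
    have : 0 < 1 / w := by positivity
    linarith
  set F : ℝ := l * |ff g r| with hF
  have hF0 : 0 < F := mul_pos hl (abs_pos.2 (ff_ne hgn r))
  set F' : ℝ := l * |ff g (r + 1)| with hF'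
  have hF'0 : 0 ≤ F' := mul_nonneg hl.le (abs_nonneg _)
  have hc1 : (1 : ℝ) ≤ c := by exact_mod_cast hc
  set c3 : ℝ := F * 65 ^ (g - r) * (1 / 2) ^ r with hc3
  have hc30 : 0 < c3 := by
    have : (0 : ℝ) < 65 ^ (g - r) := Real.rpow_pos_of_pos (by norm_num) _
    positivity
  obtain ⟨X1, hX1⟩ := eventually_atTop.1 ((tendsto_rpow_atTop he0).eventually_ge_atTop
    (max 2 (max (4 * c + 1) (c / c3 + 1))))
  refine ⟨τ, hτ0, hτe.trans hew, 1 + 2 * Real.pi * F', by have := Real.pi_pos; nlinarith [mul_nonneg this.le hF'0],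
    max X1 (max 2 (2 * c * F + 1)), (le_max_left _ _).trans (le_max_right _ _), ?_⟩
  intro X hX β hβ1 hβ2 L hL
  have hXX1 : X1 ≤ X := (le_max_left _ _).trans hX
  have hX2 : 2 ≤ X := ((le_max_left _ _).trans (le_max_right _ _)).trans hX
  have hXF : 2 * c * F + 1 ≤ X := ((le_max_right _ _).trans (le_max_right _ _)).trans hX
  have hX0 : 0 < X := by linarith
  have hX1' : 1 ≤ X := by linarith
  have hXe := hX1 X hXX1
  have hXe2 : 2 ≤ X ^ e := (le_max_left _ _).trans hXe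
  have hXe4 : 4 * c + 1 ≤ X ^ e := ((le_max_left _ _).trans (le_max_right _ _)).trans hXe
  have hXe3 : c / c3 + 1 ≤ X ^ e := ((le_max_right _ _).trans (le_max_right _ _)).trans hXe
  have hXe0 : 0 < X ^ e := by linarith
  have hβ0 : 0 < |β| := lt_of_lt_of_le (Real.rpow_pos_of_pos hX0 _) hβ1
  set B : ℝ := |β| * X ^ g with hB
  have hXg0 : 0 < X ^ g := Real.rpow_pos_of_pos hX0 _
  have hB0 : 0 < B := mul_pos hβ0 hXg0
  have hB1 : X ^ (1 / 2 : ℝ) ≤ B := by
    calc X ^ (1 / 2 : ℝ) ≤ X ^ (-(1 / 2 : ℝ) + g) := Real.rpow_le_rpow_of_exponent_le hX1' (by linarith)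
      _ = X ^ (-(1 / 2 : ℝ)) * X ^ g := Real.rpow_add hX0 _ _
      _ ≤ _ := mul_le_mul_of_nonneg_right hβ1 hXg0.le
  have hB2 : B ≤ X ^ ((k : ℝ) + 1) := by
    calc B ≤ X * X ^ g := mul_le_mul_of_nonneg_right hβ2 hXg0.le
      _ = X ^ (1 + g) := by rw [Real.rpow_add hX0, Real.rpow_one]
      _ ≤ _ := Real.rpow_le_rpow_of_exponent_le hX1' (by linarith)
  set P : ℝ := X * B ^ (-s) with hP
  have hBs0 : 0 < B ^ (-s) := Real.rpow_pos_of_pos hB0 _
  have hP0 : 0 < P := mul_pos hX0 hBs0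
  have hPlow : X ^ (7 / w) ≤ P := by
    have h1 : X ^ (-(((k : ℝ) + 1) * s)) ≤ B ^ (-s) := by
      calc X ^ (-(((k : ℝ) + 1) * s)) = (X ^ ((k : ℝ) + 1)) ^ (-s) := by
            rw [← Real.rpow_mul hX0.le]
            congr 1
            ring
        _ ≤ B ^ (-s) := Real.rpow_le_rpow_of_nonpos hB0 hB2 (by linarith)
    calc X ^ (7 / w) = X ^ (1 + -(((k : ℝ) + 1) * s)) := by
          congr 1
          rw [hs, hw, hrk]
          have : (2 * ((k : ℝ) + 4) + 1) ≠ 0 := by positivity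
          field_simp
          ring
      _ = X * X ^ (-(((k : ℝ) + 1) * s)) := by rw [Real.rpow_add hX0, Real.rpow_one]
      _ ≤ P := mul_le_mul_of_nonneg_left h1 hX0.le
  have hBs : B ^ (-s) ≤ X ^ (-(1 / w)) := by
    calc B ^ (-s) ≤ (X ^ (1 / 2 : ℝ)) ^ (-s) := Real.rpow_le_rpow_of_nonpos (Real.rpow_pos_of_pos hX0 _) hB1 (by linarith)
      _ = X ^ (-(1 / w)) := by
        rw [← Real.rpow_mul hX0.le]
        congr 1
        rw [hs]
        ring
  have hPup : P ≤ X ^ (1 - 1 / w) := by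
    calc P ≤ X * X ^ (-(1 / w)) := mul_le_mul_of_nonneg_left hBs hX0.le
      _ = X ^ (1 - 1 / w) := by
        rw [sub_eq_add_neg, Real.rpow_add hX0, Real.rpow_one]
  have h7 : X ^ e ≤ X ^ (7 / w) := by
    apply Real.rpow_le_rpow_of_exponent_le hX1'
    have h71 : (7 : ℝ) / w = 7 * (1 / w) := by ring
    rw [he4, h71]
    have : 0 < 1 / w := by positivity
    linarith
  have hP2 : 2 ≤ P := hXe2.trans (h7.trans hPlow)
  have hLP : (L : ℝ) ≤ P := by rw [hL]; exact Nat.floor_le hP0.le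
  have hPL : P < L + 1 := by rw [hL]; exact Nat.lt_floor_add_one _
  have hLhalf : P / 2 ≤ L := by linarith
  have hL1' : (1 : ℝ) ≤ L := by linarith
  have hL1 : 1 ≤ L := by exact_mod_cast hL1'
  have hL0 : (0 : ℝ) < L := by linarith
  refine ⟨hL1, hLP.trans hPup, ?_⟩
  intro z0 hz1 hz2
  have hz0 : (0 : ℝ) < z0 := by linarith
  have hgr : g - r < 0 := by rw [hrk]; linarith
  have hgr1 : g - ((r + 1 : ℕ) : ℝ) < 0 := by push_cast; linarith
  -- the powers of z0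
  have hz3 : ((z0 : ℕ) : ℝ) ^ (g - r) ≤ X ^ (g - r) := Real.rpow_le_rpow_of_nonpos hX0 (by linarith) hgr.le
  have hz4 : ((z0 : ℕ) : ℝ) ^ (g - ((r + 1 : ℕ) : ℝ)) ≤ X ^ (g - ((r + 1 : ℕ) : ℝ)) :=
    Real.rpow_le_rpow_of_nonpos hX0 (by linarith) hgr1.le
  have hz5 : 65 ^ (g - r) * X ^ (g - r) ≤ ((z0 : ℕ) : ℝ) ^ (g - r) := by
    rw [← Real.mul_rpow (by norm_num) hX0.le]
    exact Real.rpow_le_rpow_of_nonpos hz0 hz2 hgr.le
  -- the phases
  set φ : ℕ → ℝ := fun n : ℕ => β * ((((z0 : ℝ) + n) ^ k) +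
    ∑ j ∈ range (r + 1), (l * (ff g j * (z0 : ℝ) ^ (g - j))) * (n : ℝ) ^ j / (j.factorial : ℝ)) with hφ
  have hPh : Ph r (β * (l * (ff g r * (z0 : ℝ) ^ (g - r)))) φ :=
    Ph_block k r z0 (by omega) β (fun j => l * (ff g j * (z0 : ℝ) ^ (g - j)))
  have herr : ∀ n ∈ range L, ‖ee (β * (((z0 : ℝ) + n) ^ k + l * ((z0 : ℝ) + n) ^ g)) - ee (φ n)‖ ≤
      2 * Real.pi * F' * X ^ (-τ) := by
    intro n hn
    have hnL : (n : ℝ) ≤ P := by
      have : (n : ℝ) ≤ L := by exact_mod_cast (mem_range.1 hn).le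
      linarith
    have h1 := taylor_pow g r (by linarith) hz0 (x := n) (Nat.cast_nonneg n)
    have h2 : |β * (((z0 : ℝ) + n) ^ k + l * ((z0 : ℝ) + n) ^ g) - φ n| ≤ F' * X ^ (-τ) := by
      have h3 : β * (((z0 : ℝ) + n) ^ k + l * ((z0 : ℝ) + n) ^ g) - φ n =
          β * (l * (((z0 : ℝ) + n) ^ g - ∑ j ∈ range (r + 1), (ff g j * (z0 : ℝ) ^ (g - j)) * (n : ℝ) ^ j / (j.factorial : ℝ))) := by
        have e5 : ∑ j ∈ range (r + 1), (l * (ff g j * (z0 : ℝ) ^ (g - j))) * (n : ℝ) ^ j / (j.factorial : ℝ) =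
            l * ∑ j ∈ range (r + 1), (ff g j * (z0 : ℝ) ^ (g - j)) * (n : ℝ) ^ j / (j.factorial : ℝ) := by
          rw [mul_sum]
          exact sum_congr rfl fun j _ => by ring
        simp only [hφ]
        rw [e5]
        ring
      rw [h3, abs_mul, abs_mul, abs_of_pos hl]
      calc |β| * (l * |((z0 : ℝ) + n) ^ g - ∑ j ∈ range (r + 1), (ff g j * (z0 : ℝ) ^ (g - j)) * (n : ℝ) ^ j / (j.factorial : ℝ)|)
          ≤ |β| * (l * (|ff g (r + 1)| * (z0 : ℝ) ^ (g - ((r + 1 : ℕ) : ℝ)) * (n : ℝ) ^ (r + 1))) :=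
            mul_le_mul_of_nonneg_left (mul_le_mul_of_nonneg_left h1 hl.le) (abs_nonneg _)
        _ = |β| * (F' * (z0 : ℝ) ^ (g - ((r + 1 : ℕ) : ℝ)) * (n : ℝ) ^ (r + 1)) := by
            rw [hF']
            ring
        _ ≤ |β| * (F' * X ^ (g - ((r + 1 : ℕ) : ℝ)) * P ^ (r + 1)) := by
            apply mul_le_mul_of_nonneg_left _ (abs_nonneg _)
            apply mul_le_mul (mul_le_mul_of_nonneg_left hz4 hF'0) (pow_le_pow_left₀ (Nat.cast_nonneg n) hnL _)
              (by positivity)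
            exact mul_nonneg hF'0 (Real.rpow_nonneg hX0.le _)
        _ = F' * (|β| * X ^ (g - ((r + 1 : ℕ) : ℝ)) * P ^ (r + 1)) := by ring
        _ = F' * B ^ (1 - s * ((r + 1 : ℕ) : ℝ)) := by rw [hP, powid (r + 1) hX0 hB0 hB.symm]
        _ = F' * B ^ (-(1 / w)) := by
            congr 2
            rw [hs, hw]
            have : (2 * (r : ℝ) + 1) ≠ 0 := by positivity
            push_cast
            field_simp
            ring
        _ ≤ F' * (X ^ (1 / 2 : ℝ)) ^ (-(1 / w)) := by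
            apply mul_le_mul_of_nonneg_left _ hF'0
            exact Real.rpow_le_rpow_of_nonpos (Real.rpow_pos_of_pos hX0 _) hB1 (by
              have : 0 < 1 / w := by positivity
              linarith)
        _ = F' * X ^ (-(1 / w / 2)) := by
            rw [← Real.rpow_mul hX0.le]
            congr 2
            ring
        _ ≤ F' * X ^ (-τ) := by
            apply mul_le_mul_of_nonneg_left _ hF'0
            apply Real.rpow_le_rpow_of_exponent_le hX1'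
            have : 0 < 1 / w := by positivity
            rw [he4] at hτe
            linarith
    refine (ee_sub_le _ _).trans ?_
    calc 2 * Real.pi * |β * (((z0 : ℝ) + n) ^ k + l * ((z0 : ℝ) + n) ^ g) - φ n| ≤ 2 * Real.pi * (F' * X ^ (-τ)) :=
          mul_le_mul_of_nonneg_left h2 (by positivity)
      _ = _ := by ring
  -- the main part
  have hmain : ‖∑ n ∈ range L, ee (φ n)‖ ≤ L * X ^ (-τ) := by
    by_contra hcon
    push Not at hcon
    have hXτ0 : 0 < X ^ τ := Real.rpow_pos_of_pos hX0 _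
    have hu1 : 1 ≤ X ^ τ := Real.one_le_rpow hX1' hτ0.le
    have hbig : (L : ℝ) ≤ X ^ τ * ‖∑ n ∈ range L, ee (φ n)‖ := by
      have h1 : (L : ℝ) = X ^ τ * (L * X ^ (-τ)) := by
        rw [Real.rpow_neg hX0.le]
        field_simp
      calc (L : ℝ) = X ^ τ * (L * X ^ (-τ)) := h1
        _ ≤ _ := mul_le_mul_of_nonneg_left hcon.le hXτ0.le
    obtain ⟨q, hq1, hq2, a, ha⟩ := hI L (X ^ τ) _ φ hL1 hu1 hPh hbig
    have hum : (X ^ τ) ^ m ≤ X ^ e := by
      rw [← Real.rpow_natCast (X ^ τ) m, ← Real.rpow_mul hX0.le]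
      exact Real.rpow_le_rpow_of_exponent_le hX1' hτm
    set α : ℝ := β * (l * (ff g r * (z0 : ℝ) ^ (g - r))) with hα
    have hαabs : |α| = |β| * (F * (z0 : ℝ) ^ (g - r)) := by
      rw [hα, abs_mul, abs_mul, abs_mul, abs_of_pos (Real.rpow_pos_of_pos hz0 _), abs_of_pos hl, hF]
      ring
    have hcXe : (c : ℝ) * (X ^ τ) ^ m ≤ c * X ^ e := mul_le_mul_of_nonneg_left hum (by linarith)
    have hq2' : (q : ℝ) ≤ c * X ^ e := hq2.trans hcXe
    have hLr0 : 0 < (L : ℝ) ^ r := pow_pos hL0 r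
    have ha' : |q * α - a| ≤ c * X ^ e / (L : ℝ) ^ r :=
      ha.trans (div_le_div_of_nonneg_right hcXe hLr0.le)
    -- the size of q α
    have h1 : |α| ≤ F * X ^ (-3 : ℝ) := by
      rw [hαabs]
      calc |β| * (F * (z0 : ℝ) ^ (g - r)) ≤ X * (F * X ^ (g - r)) :=
            mul_le_mul hβ2 (mul_le_mul_of_nonneg_left hz3 hF0.le)
              (mul_nonneg hF0.le (Real.rpow_nonneg hz0.le _)) hX0.le
        _ = F * X ^ (1 + (g - r)) := by
            rw [Real.rpow_add hX0, Real.rpow_one]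
            ring
        _ ≤ F * X ^ (-3 : ℝ) := by
            apply mul_le_mul_of_nonneg_left _ hF0.le
            apply Real.rpow_le_rpow_of_exponent_le hX1'
            rw [hrk]
            linarith
    have hXm3 : X ^ (-3 : ℝ) = 1 / X ^ 3 := by
      rw [Real.rpow_neg hX0.le, one_div]
      congr 1
      exact_mod_cast Real.rpow_natCast X 3
    have hXe1 : X ^ e ≤ X := by
      calc X ^ e ≤ X ^ (1 : ℝ) := Real.rpow_le_rpow_of_exponent_le hX1' he1
        _ = X := Real.rpow_one X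
    have hq0 : (1 : ℝ) ≤ q := by exact_mod_cast hq1
    have h2 : |(q : ℝ) * α| < 1 / 2 := by
      rw [abs_mul, abs_of_nonneg (by linarith : (0 : ℝ) ≤ q)]
      calc (q : ℝ) * |α| ≤ (c * X) * (F * (1 / X ^ 3)) := by
            rw [hXm3] at h1
            apply mul_le_mul (hq2'.trans (mul_le_mul_of_nonneg_left hXe1 (by linarith))) h1 (abs_nonneg _)
            positivity
        _ = c * F / X ^ 2 := by field_simp
        _ < 1 / 2 := by
            rw [div_lt_div_iff₀ (by positivity) (by norm_num)]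
            have h7 : X ≤ X ^ 2 := le_self_pow₀ hX1' (by norm_num)
            linarith [hXF.trans h7]
    have h3 : c * X ^ e / (L : ℝ) ^ r < 1 / 2 := by
      have h4 : P / 2 ≤ (L : ℝ) ^ r := hLhalf.trans (le_self_pow₀ hL1' (by omega))
      have h5 : X ^ e * X ^ e ≤ P := by
        calc X ^ e * X ^ e = X ^ (e + e) := (Real.rpow_add hX0 _ _).symm
          _ ≤ X ^ (7 / w) := by
            apply Real.rpow_le_rpow_of_exponent_le hX1'
            have h71 : (7 : ℝ) / w = 7 * (1 / w) := by ring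
            rw [he4, h71]
            have : 0 < 1 / w := by positivity
            linarith
          _ ≤ P := hPlow
      rw [div_lt_iff₀ hLr0]
      have h6 : (4 * c + 1) * X ^ e ≤ P := (mul_le_mul_of_nonneg_right hXe4 hXe0.le).trans h5
      linarith
    have h4 : a = 0 := by
      have h5 : |(a : ℝ)| < 1 := by
        calc |(a : ℝ)| = |(q : ℝ) * α - (q * α - a)| := by
              congr 1
              ring
          _ ≤ |(q : ℝ) * α| + |q * α - a| := abs_sub _ _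
          _ < 1 / 2 + 1 / 2 := add_lt_add_of_lt_of_le h2 (ha'.trans h3.le)
          _ = 1 := by norm_num
      have h6 : |a| < 1 := by exact_mod_cast h5
      exact Int.abs_lt_one_iff.1 h6
    rw [h4, Int.cast_zero, sub_zero, abs_mul, abs_of_nonneg (by linarith : (0 : ℝ) ≤ q)] at ha'
    have h5 : |α| * (L : ℝ) ^ r ≤ c * X ^ e := by
      have h6 : |α| ≤ c * X ^ e / (L : ℝ) ^ r := by
        exact le_trans (le_mul_of_one_le_left (abs_nonneg α) hq0) ha'
      rwa [le_div_iff₀ hLr0] at h6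
    have h6 : c3 * (X ^ e * X ^ e) ≤ |α| * (L : ℝ) ^ r := by
      calc c3 * (X ^ e * X ^ e) = c3 * (X ^ (1 / 2 : ℝ)) ^ (1 / w) := by
            rw [← Real.rpow_add hX0, ← Real.rpow_mul hX0.le]
            congr 2
            rw [he4]
            ring
        _ ≤ c3 * B ^ (1 / w) := by
            apply mul_le_mul_of_nonneg_left _ hc30.le
            exact Real.rpow_le_rpow (Real.rpow_nonneg hX0.le _) hB1 (by positivity)
        _ = c3 * B ^ (1 - s * (r : ℝ)) := by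
            congr 2
            rw [hs, hw]
            have : (2 * (r : ℝ) + 1) ≠ 0 := by positivity
            field_simp
            ring
        _ = c3 * (|β| * X ^ (g - r) * P ^ r) := by rw [hP, powid r hX0 hB0 hB.symm]
        _ = (|β| * (F * (65 ^ (g - r) * X ^ (g - r)))) * (P / 2) ^ r := by
            rw [hc3, div_pow, div_pow, one_pow]
            ring
        _ ≤ (|β| * (F * (z0 : ℝ) ^ (g - r))) * (L : ℝ) ^ r := by
            apply mul_le_mul
            · apply mul_le_mul_of_nonneg_left _ (abs_nonneg _)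
              exact mul_le_mul_of_nonneg_left hz5 hF0.le
            · exact pow_le_pow_left₀ (by linarith) hLhalf _
            · positivity
            · exact mul_nonneg (abs_nonneg _) (mul_nonneg hF0.le (Real.rpow_nonneg hz0.le _))
        _ = _ := by rw [hαabs]
    have h7' : c3 * X ^ e ≤ c := by
      have h8 : (c3 * X ^ e) * X ^ e ≤ c * X ^ e := by
        calc (c3 * X ^ e) * X ^ e = c3 * (X ^ e * X ^ e) := by ring
          _ ≤ _ := h6.trans h5
      exact le_of_mul_le_mul_right h8 hXe0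
    have h8 : c3 * (c / c3 + 1) ≤ c := (mul_le_mul_of_nonneg_left hXe3 hc30.le).trans h7'
    have h9 : c3 * (c / c3 + 1) = c + c3 := by field_simp
    linarith
  -- conclusion
  have hfin : ∑ n ∈ range L, ee (β * (((z0 : ℝ) + n) ^ k + l * ((z0 : ℝ) + n) ^ g)) =
      ∑ n ∈ range L, ee (φ n) + ∑ n ∈ range L, (ee (β * (((z0 : ℝ) + n) ^ k + l * ((z0 : ℝ) + n) ^ g)) - ee (φ n)) := by
    rw [← sum_add_distrib]
    exact sum_congr rfl fun n _ => by ring
  rw [hfin]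
  calc ‖∑ n ∈ range L, ee (φ n) + ∑ n ∈ range L, (ee (β * (((z0 : ℝ) + n) ^ k + l * ((z0 : ℝ) + n) ^ g)) - ee (φ n))‖
      ≤ ‖∑ n ∈ range L, ee (φ n)‖ + ‖∑ n ∈ range L, (ee (β * (((z0 : ℝ) + n) ^ k + l * ((z0 : ℝ) + n) ^ g)) - ee (φ n))‖ :=
        norm_add_le _ _
    _ ≤ L * X ^ (-τ) + ∑ n ∈ range L, ‖ee (β * (((z0 : ℝ) + n) ^ k + l * ((z0 : ℝ) + n) ^ g)) - ee (φ n)‖ :=
        add_le_add hmain (norm_sum_le _ _)
    _ ≤ L * X ^ (-τ) + ∑ n ∈ range L, 2 * Real.pi * F' * X ^ (-τ) := by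
        have := sum_le_sum herr
        linarith
    _ = (1 + 2 * Real.pi * F') * L * X ^ (-τ) := by
        rw [sum_const, card_range, nsmul_eq_mul]
        ring

/-- **Exponential sums with `β (z ^ k + l z ^ g)`, large `β`.** -/
theorem t_ESL (k : ℕ) (hk : 2 ≤ k) {g : ℝ} (hg1 : 1 < g) (hgk : g < k) (hgn : ∀ n : ℕ, g ≠ n) {l : ℝ} (hl : 0 < l) :
    ∃ σ : ℝ, 0 < σ ∧ σ ≤ 1 ∧ ∃ C : ℝ, 1 ≤ C ∧ ∃ X0 : ℝ, 2 ≤ X0 ∧ ∀ X : ℝ, X0 ≤ X → ∀ β : ℝ, X ^ (-(1 / 2 : ℝ)) ≤ |β| → |β| ≤ X →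
      ∀ Y M : ℕ, 4 * X ≤ Y → (Y : ℝ) + M ≤ 64 * X + 1 →
        ‖∑ n ∈ range M, ee (β * (((Y : ℝ) + n) ^ k + l * ((Y : ℝ) + n) ^ g))‖ ≤ C * X ^ (1 - σ) := by
  obtain ⟨τ, hτ0, hτ1, C, hC, X0, hX0, H⟩ := block k hk hg1 hgk hgn hl
  have hw : (13 : ℝ) ≤ 2 * ((k + 4 : ℕ) : ℝ) + 1 := by
    have : (2 : ℝ) ≤ k := by exact_mod_cast hk
    push_cast
    linarith
  have hτ1' : τ ≤ 1 := hτ1.trans (by rw [div_le_one (by linarith)]; linarith)
  refine ⟨τ, hτ0, hτ1', 61 * C + 1, by linarith, X0, hX0, ?_⟩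
  intro X hX β hβ1 hβ2 Y M hY hM
  obtain ⟨hL1, hL2, hblk⟩ := H X hX β hβ1 hβ2 _ rfl
  set L : ℕ := ⌊X * (|β| * X ^ g) ^ (-(2 / (2 * ((k + 4 : ℕ) : ℝ) + 1)))⌋₊ with hL
  have hX2 : 2 ≤ X := hX0.trans hX
  have hXp : 0 < X := by linarith
  have hX1 : 1 ≤ X := by linarith
  have hM61 : (M : ℝ) ≤ 61 * X := by linarith
  have hsplit : M = (M / L) * L + M % L := (Nat.div_add_mod' M L).symm
  have hb : ((M / L : ℕ) : ℝ) * L ≤ M := by
    exact_mod_cast Nat.div_mul_le_self M L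
  have hXτ : 0 < X ^ (-τ) := Real.rpow_pos_of_pos hXp _
  have h1 : ‖∑ n ∈ range ((M / L) * L), ee (β * (((Y : ℝ) + n) ^ k + l * ((Y : ℝ) + n) ^ g))‖ ≤
      (M / L : ℕ) * (C * L * X ^ (-τ)) := by
    apply blocks (fun n : ℕ => ee (β * (((Y : ℝ) + n) ^ k + l * ((Y : ℝ) + n) ^ g)))
    intro i hi
    have hiL : i * L + L ≤ M := by
      have h2 : (i + 1) * L ≤ (M / L) * L := Nat.mul_le_mul_right L hi
      have h3 := Nat.div_mul_le_self M L
      calc i * L + L = (i + 1) * L := by ring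
        _ ≤ M := h2.trans h3
    have h4 := hblk (Y + i * L) (by push_cast; nlinarith [show (0 : ℝ) ≤ (i : ℝ) * L by positivity])
      (by
        have h5 : ((i * L + L : ℕ) : ℝ) ≤ M := by exact_mod_cast hiL
        push_cast at h5 ⊢
        have : (0 : ℝ) ≤ L := Nat.cast_nonneg L
        linarith)
    have e1 : ∀ n : ℕ, (((Y + i * L : ℕ) : ℝ) + n) = (Y : ℝ) + ((i * L + n : ℕ) : ℝ) := by
      intro n
      push_cast
      ring
    simp only [e1] at h4
    exact h4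
  have h2 : ‖∑ n ∈ range (M % L), ee (β * (((Y : ℝ) + ((M / L * L + n : ℕ) : ℝ)) ^ k + l * ((Y : ℝ) + ((M / L * L + n : ℕ) : ℝ)) ^ g))‖ ≤ L := by
    refine (norm_sum_le _ _).trans ?_
    simp only [ee_norm, sum_const, card_range, nsmul_eq_mul, mul_one]
    exact_mod_cast (Nat.mod_lt M (by omega)).le
  rw [hsplit, sum_range_add]
  refine (norm_add_le _ _).trans ((add_le_add h1 h2).trans ?_)
  have h3 : X ^ (1 - 1 / (2 * ((k + 4 : ℕ) : ℝ) + 1)) ≤ X ^ (1 - τ) :=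
    Real.rpow_le_rpow_of_exponent_le hX1 (by linarith)
  have h4 : X * X ^ (-τ) = X ^ (1 - τ) := by
    rw [sub_eq_add_neg, Real.rpow_add hXp, Real.rpow_one]
  calc ((M / L : ℕ) : ℝ) * (C * L * X ^ (-τ)) + L = C * X ^ (-τ) * (((M / L : ℕ) : ℝ) * L) + L := by ring
    _ ≤ C * X ^ (-τ) * (61 * X) + X ^ (1 - τ) := by
        apply add_le_add _ (hL2.trans h3)
        apply mul_le_mul_of_nonneg_left (hb.trans hM61)
        have : 0 ≤ C := by linarith
        positivity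
    _ = 61 * C * (X * X ^ (-τ)) + X ^ (1 - τ) := by ring
    _ = (61 * C + 1) * X ^ (1 - τ) := by rw [h4]; ring

end Pool.Agent.J4H30.WS
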