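import Pool.Agent.J4H30.WS.PolA

set_option autoImplicit false

/-!
# Exponential sums with `β (z ^ k + R (z))`, `R` a real polynomial of lower degree, small `β` (helper30)

The inverse form of Weyl's inequality gives `β = a / q + γ`. On a progression modulo `q` in a short interval the phase
is `(a / q) R (z)` up to a constant, and Weyl's inequality for `R` contradicts the Diophantine condition on the leading
coefficient of `R`.
-/

namespace Pool.Agent.J4H30.WS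

open Finset Polynomial
open Pool.Agent.J4H7.WE (ee_add ee_int)
open Pool.Agent.J4H7.WL (DC)
open Pool.Agent.Helper153.Vdc (ee ee_norm)
open Pool.Agent.H373R2.NB (Ph IW IW_all Ph_poly)
open Pool.Agent.J4H30.WR (Ph_add Ph_zero Ph_sum ee_sub_le blocks)

/-- the progression sums -/
lemma prog (j : ℕ) (hj : 1 ≤ j) (R : ℝ[X]) (hR : R.natDegree = j) {c : ℝ} (hc : 0 < c) (hDC : DC c R.leadingCoeff) :
    ∃ m2 : ℕ, ∀ A Q : ℕ, 4 * A + m2 + 2 * (m2 + A * j + 3) + 1 ≤ 2 * Q →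
      ∃ T0 : ℝ, 2 ≤ T0 ∧ ∀ T : ℝ, T0 ≤ T → ∀ (q : ℕ) (a : ℤ), 1 ≤ q → (q : ℝ) ≤ T ^ A → a ≠ 0 →
        |(a : ℝ)| ≤ T ^ (A + 2) → ∀ W : ℕ, 1 ≤ W → T ^ (2 * Q - 4 * A) ≤ 2 * W → ∀ r : ℕ,
          ‖∑ w ∈ range W, ee ((a / q : ℝ) * R.eval ((q * w + r : ℕ) : ℝ))‖ ≤ W / T := by
  obtain ⟨c2, m2, hc2, hI⟩ := IW_all j hj
  refine ⟨m2, fun A Q hQ => ⟨max 2 (max (c2 * j.factorial) (2 * c2 / c + 1)), le_max_left _ _, ?_⟩⟩
  intro T hT q a hq hqT ha haT W hW hWT r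
  have hT2 : 2 ≤ T := (le_max_left _ _).trans hT
  have hTc : ((c2 : ℝ) * j.factorial) ≤ T := ((le_max_left _ _).trans (le_max_right _ _)).trans hT
  have hTc' : 2 * c2 / c + 1 ≤ T := ((le_max_right _ _).trans (le_max_right _ _)).trans hT
  have hT1 : 1 ≤ T := by linarith
  have hT0 : 0 < T := by linarith
  by_contra hcon
  push Not at hcon
  have hW1 : (1 : ℝ) ≤ W := by exact_mod_cast hW
  have hW0 : (0 : ℝ) < W := by linarith
  have hbig : (W : ℝ) ≤ T * ‖∑ w ∈ range W, ee ((a / q : ℝ) * R.eval ((q * w + r : ℕ) : ℝ))‖ := by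
    have := hcon.le
    rwa [div_le_iff₀' hT0] at this
  have hPh : Ph j ((a / q : ℝ) * ((q : ℝ) ^ j * ((j.factorial : ℝ) * R.coeff j)))
      (fun w : ℕ => (a / q : ℝ) * R.eval ((q * w + r : ℕ) : ℝ)) :=
    Ph_mul j _ _ _ (Ph_dil j q _ _ (Ph_shift j r _ _ (Ph_real j R hR.le)))
  obtain ⟨D, hD1, hD2, b, hb⟩ := hI W T _ _ hW hT1 hPh hbig
  have hq0 : (q : ℝ) ≠ 0 := by
    have : 0 < q := hq
    exact_mod_cast this.ne'
  have hρ : R.coeff j = R.leadingCoeff := by rw [leadingCoeff, hR]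
  have hqj : (q : ℝ) ^ j = q ^ (j - 1) * q := by
    rw [← pow_succ]
    congr 1
    omega
  have hα : (D : ℝ) * ((a / q : ℝ) * ((q : ℝ) ^ j * ((j.factorial : ℝ) * R.coeff j))) =
      (D * (q : ℝ) ^ (j - 1) * a * j.factorial) * R.leadingCoeff := by
    rw [hρ, hqj]
    field_simp
  rw [hα] at hb
  set n : ℕ := D * q ^ (j - 1) * a.natAbs * j.factorial with hn
  have hn1 : 1 ≤ n := by
    have h1 : 0 < a.natAbs := Int.natAbs_pos.2 ha
    have h2 : 0 < q ^ (j - 1) := pow_pos hq _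
    have h3 : 0 < D := hD1
    have h4 := Nat.factorial_pos j
    exact Nat.mul_pos (Nat.mul_pos (Nat.mul_pos h3 h2) h1) h4
  have hn1' : (1 : ℝ) ≤ n := by exact_mod_cast hn1
  have hncast : (n : ℝ) = D * (q : ℝ) ^ (j - 1) * |(a : ℝ)| * j.factorial := by
    rw [hn]
    push_cast
    rw [Nat.cast_natAbs]
    push_cast
    ring
  have hDC' : c / (n : ℝ) ^ 2 ≤ |(D * (q : ℝ) ^ (j - 1) * a * j.factorial) * R.leadingCoeff - b| := by
    rcases lt_or_gt_of_ne ha with h | h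
    · have h1 : (a : ℝ) < 0 := by exact_mod_cast h
      have h2 := hDC n (-b) hn1
      rw [hncast, abs_of_neg h1] at h2
      rw [hncast, abs_of_neg h1]
      refine h2.trans (le_of_eq ?_)
      rw [← abs_neg]
      congr 1
      push_cast
      ring
    · have h1 : (0 : ℝ) < a := by exact_mod_cast h
      have h2 := hDC n b hn1
      rw [hncast, abs_of_pos h1] at h2
      rw [hncast, abs_of_pos h1]
      exact h2
  have hc2' : (1 : ℝ) ≤ c2 := by exact_mod_cast hc2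
  have hnT : (n : ℝ) ≤ T ^ (m2 + A * j + 3) := by
    rw [hncast]
    calc (D : ℝ) * (q : ℝ) ^ (j - 1) * |(a : ℝ)| * j.factorial
        ≤ (c2 * T ^ m2) * (T ^ A) ^ (j - 1) * T ^ (A + 2) * j.factorial := by gcongr
      _ = (c2 * j.factorial) * T ^ (m2 + A * (j - 1) + (A + 2)) := by
          rw [pow_add T (m2 + A * (j - 1)) (A + 2), pow_add T m2 (A * (j - 1)), pow_mul]
          ring
      _ ≤ T * T ^ (m2 + A * (j - 1) + (A + 2)) := mul_le_mul_of_nonneg_right hTc (by positivity)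
      _ = T ^ (m2 + A * j + 3) := by
          rw [← pow_succ']
          congr 1
          obtain ⟨i, rfl⟩ : ∃ i, j = i + 1 := ⟨j - 1, by omega⟩
          rw [Nat.add_sub_cancel, Nat.mul_succ]
          ring
  have h5 : c / (n : ℝ) ^ 2 ≤ c2 * T ^ m2 / W := by
    refine (hDC'.trans hb).trans ?_
    apply div_le_div_of_nonneg_left (by positivity) hW0
    exact le_self_pow₀ hW1 (by omega)
  rw [div_le_div_iff₀ (by positivity) hW0] at h5
  have h6 : (n : ℝ) ^ 2 ≤ T ^ (2 * (m2 + A * j + 3)) := by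
    calc (n : ℝ) ^ 2 ≤ (T ^ (m2 + A * j + 3)) ^ 2 := pow_le_pow_left₀ (by positivity) hnT 2
      _ = _ := by rw [← pow_mul, mul_comm]
  have h7 : c * T ^ (2 * Q - 4 * A) ≤ (2 * c2) * T ^ (m2 + 2 * (m2 + A * j + 3)) := by
    calc c * T ^ (2 * Q - 4 * A) ≤ c * (2 * W) := mul_le_mul_of_nonneg_left hWT hc.le
      _ = 2 * (c * W) := by ring
      _ ≤ 2 * (c2 * T ^ m2 * (n : ℝ) ^ 2) := by linarith
      _ ≤ 2 * (c2 * T ^ m2 * T ^ (2 * (m2 + A * j + 3))) := by gcongr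
      _ = _ := by rw [pow_add]; ring
  have h8 : c * T * T ^ (m2 + 2 * (m2 + A * j + 3)) ≤ (2 * c2) * T ^ (m2 + 2 * (m2 + A * j + 3)) := by
    refine le_trans ?_ h7
    rw [mul_assoc, ← pow_succ']
    apply mul_le_mul_of_nonneg_left _ hc.le
    exact pow_le_pow_right₀ hT1 (by omega)
  have h9 : c * T ≤ 2 * c2 := le_of_mul_le_mul_right h8 (by positivity)
  have h10 : c * (2 * c2 / c + 1) ≤ 2 * c2 := (mul_le_mul_of_nonneg_left hTc' hc.le).trans h9
  have h11 : c * (2 * c2 / c + 1) = 2 * c2 + c := by field_simp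
  linarith

/-- comparison of two sums -/
lemma cmp {W : ℕ} {T : ℝ} (u v : ℕ → ℂ) (c0 : ℂ) (h0 : ‖c0‖ = 1) (h : ∀ w ∈ range W, ‖u w - c0 * v w‖ ≤ 1 / T)
    (hv : ‖∑ w ∈ range W, v w‖ ≤ W / T) : ‖∑ w ∈ range W, u w‖ ≤ 2 * W / T := by
  have h1 : ∑ w ∈ range W, u w = c0 * ∑ w ∈ range W, v w + ∑ w ∈ range W, (u w - c0 * v w) := by
    rw [mul_sum, ← sum_add_distrib]
    exact sum_congr rfl fun w _ => by ring
  have h2 := (norm_sum_le (range W) (fun w => u w - c0 * v w)).trans (sum_le_sum h)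
  rw [sum_const, card_range, nsmul_eq_mul] at h2
  have h3 : ‖c0 * ∑ w ∈ range W, v w‖ ≤ W / T := by
    rw [norm_mul, h0, one_mul]
    exact hv
  calc ‖∑ w ∈ range W, u w‖ = ‖c0 * ∑ w ∈ range W, v w + ∑ w ∈ range W, (u w - c0 * v w)‖ := by rw [h1]
    _ ≤ ‖c0 * ∑ w ∈ range W, v w‖ + ‖∑ w ∈ range W, (u w - c0 * v w)‖ := norm_add_le _ _
    _ ≤ (W : ℝ) / T + W * (1 / T) := add_le_add h3 h2
    _ = 2 * W / T := by ring

/-- one block -/
lemma blk (k : ℕ) (R : ℝ[X]) {T γ : ℝ} {q W z0 : ℕ} (hq : 1 ≤ q) {a : ℤ} {β : ℝ} (hβ : β = a / q + γ)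
    (hprog : ∀ r : ℕ, ‖∑ w ∈ range W, ee ((a / q : ℝ) * R.eval ((q * w + r : ℕ) : ℝ))‖ ≤ W / T)
    (herr : ∀ n < q * W, 2 * Real.pi * (|γ| * |(X ^ k + R).eval ((z0 + n : ℕ) : ℝ) - (X ^ k + R).eval (z0 : ℝ)|) ≤ 1 / T) :
    ‖∑ n ∈ range (q * W), ee (β * (X ^ k + R).eval ((z0 + n : ℕ) : ℝ))‖ ≤ 2 * ((q * W : ℕ) : ℝ) / T := by
  rw [sum_prog]
  refine (norm_sum_le _ _).trans ?_
  have h1 : ∀ i ∈ range q, ‖∑ w ∈ range W, ee (β * (X ^ k + R).eval ((z0 + (q * w + i) : ℕ) : ℝ))‖ ≤ 2 * W / T := by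
    intro i hi
    have hi' := mem_range.1 hi
    have e1 : ∀ w : ℕ, z0 + (q * w + i) = q * w + (z0 + i) := fun w => by ring
    have h2 : ∀ w ∈ range W, ‖ee (β * (X ^ k + R).eval ((z0 + (q * w + i) : ℕ) : ℝ)) -
        ee ((a / q : ℝ) * (((z0 + i : ℕ)) : ℝ) ^ k + γ * (X ^ k + R).eval (z0 : ℝ)) *
          ee ((a / q : ℝ) * R.eval ((q * w + (z0 + i) : ℕ) : ℝ))‖ ≤ 1 / T := by
      intro w hw
      have hw' := mem_range.1 hw
      have hlt : q * w + i < q * W := by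
        calc q * w + i < q * w + q := by omega
          _ = q * (w + 1) := by ring
          _ ≤ q * W := Nat.mul_le_mul_left q hw'
      have h3 := ee_prog a q (z0 + i) w k hq ((a / q : ℝ) * R.eval ((q * w + (z0 + i) : ℕ) : ℝ) + γ * (X ^ k + R).eval (z0 : ℝ))
      have e2 : ee ((a / q : ℝ) * (((z0 + i : ℕ)) : ℝ) ^ k + γ * (X ^ k + R).eval (z0 : ℝ)) *
          ee ((a / q : ℝ) * R.eval ((q * w + (z0 + i) : ℕ) : ℝ)) =
          ee ((a / q : ℝ) * ((q * w + (z0 + i) : ℕ) : ℝ) ^ k +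
            ((a / q : ℝ) * R.eval ((q * w + (z0 + i) : ℕ) : ℝ) + γ * (X ^ k + R).eval (z0 : ℝ))) := by
        rw [h3, ← ee_add]
        congr 1
        ring
      rw [e2, e1 w]
      refine (ee_sub_le _ _).trans (le_trans (le_of_eq ?_) (herr _ hlt))
      rw [← abs_mul, e1 w]
      congr 2
      rw [hβ]
      simp only [eval_add, eval_pow, eval_X]
      ring
    exact cmp _ _ _ (ee_norm _) h2 (hprog (z0 + i))
  refine (sum_le_sum h1).trans (le_of_eq ?_)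
  rw [sum_const, card_range, nsmul_eq_mul]
  push_cast
  ring

/-- the estimate in terms of `T`, `X = T ^ (2 Q)` -/
lemma core (k j : ℕ) (hj : 1 ≤ j) (hjk : j < k) (R : ℝ[X]) (hR : R.natDegree = j) {c : ℝ} (hc : 0 < c)
    (hDC : DC c R.leadingCoeff) :
    ∃ (Q : ℕ) (T0 : ℝ), 1 ≤ Q ∧ 2 ≤ T0 ∧ ∀ T : ℝ, T0 ≤ T → ∀ β : ℝ, 1 ≤ |β| * T ^ Q → |β| ≤ T → ∀ Y M : ℕ,
      (Y : ℝ) + M ≤ 65 * T ^ (2 * Q) → (M : ℝ) ≤ 61 * T ^ (2 * Q) →
      ‖∑ n ∈ range M, ee (β * (X ^ k + R).eval ((Y + n : ℕ) : ℝ))‖ ≤ 123 * T ^ (2 * Q - 1) := by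
  obtain ⟨c1, m1, hc1, hI⟩ := IW_all k (by omega)
  obtain ⟨m2, hprog⟩ := prog j hj R hR hc hDC
  have hGd : (X ^ k + R).natDegree ≤ k := natDegree_add_le_of_degree_le (natDegree_X_pow_le k) (by omega)
  have hGk : (X ^ k + R).coeff k = 1 := by
    rw [coeff_add, coeff_X_pow, if_pos rfl, coeff_eq_zero_of_natDegree_lt (by omega), add_zero]
  obtain ⟨K, hK0, hK⟩ := lip_poly (X ^ k + R) k hGd
  set A : ℕ := m1 + k + 1 with hA
  set Q : ℕ := 4 * A + m2 + 2 * (m2 + A * j + 3) + 1 with hQ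
  obtain ⟨T1, hT1, hprog⟩ := hprog A Q (by omega)
  refine ⟨Q, max T1 (max (k.factorial * c1) (2 * Real.pi * K * 65 ^ (k - 1))), by omega, hT1.trans (le_max_left _ _), ?_⟩
  intro T hT β hβ1 hβ2 Y M hYM hM
  have hTT1 : T1 ≤ T := (le_max_left _ _).trans hT
  have hTc : (k.factorial : ℝ) * c1 ≤ T := ((le_max_left _ _).trans (le_max_right _ _)).trans hT
  have hTK : 2 * Real.pi * K * 65 ^ (k - 1) ≤ T := ((le_max_right _ _).trans (le_max_right _ _)).trans hT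
  have hT2 : 2 ≤ T := hT1.trans hTT1
  have hT1' : 1 ≤ T := by linarith
  have hT0 : 0 < T := by linarith
  have hc1' : (1 : ℝ) ≤ c1 := by exact_mod_cast hc1
  have hkf : (1 : ℝ) ≤ k.factorial := by exact_mod_cast Nat.one_le_iff_ne_zero.2 (Nat.factorial_ne_zero k)
  have hTc1 : (c1 : ℝ) ≤ T := (le_mul_of_one_le_left (by linarith) hkf).trans hTc
  set G : ℝ[X] := X ^ k + R with hG
  by_contra hcon
  push Not at hcon
  have hSM : ‖∑ n ∈ range M, ee (β * G.eval ((Y + n : ℕ) : ℝ))‖ ≤ M := by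
    refine (norm_sum_le _ _).trans ?_
    simp only [ee_norm, sum_const, card_range, nsmul_eq_mul, mul_one]
    exact le_rfl
  have hP1 : 0 < T ^ (2 * Q - 1) := by positivity
  have hM1 : T ^ (2 * Q - 1) ≤ M := by linarith
  have hM0 : (0 : ℝ) < M := by linarith
  have hMn : 1 ≤ M := by
    have : 0 < M := by exact_mod_cast hM0
    omega
  have hQT : T ^ (2 * Q) = T * T ^ (2 * Q - 1) := by
    rw [← pow_succ']
    congr 1
  have hbig : (M : ℝ) ≤ T * ‖∑ n ∈ range M, ee (β * G.eval ((Y + n : ℕ) : ℝ))‖ := by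
    calc (M : ℝ) ≤ 61 * T ^ (2 * Q) := hM
      _ = T * (61 * T ^ (2 * Q - 1)) := by rw [hQT]; ring
      _ ≤ _ := by
        apply mul_le_mul_of_nonneg_left _ hT0.le
        linarith
  have hPh : Ph k (β * ((k.factorial : ℝ) * 1)) (fun n : ℕ => β * G.eval ((Y + n : ℕ) : ℝ)) := by
    have h1 := Ph_mul k β _ _ (Ph_shift k Y _ _ (Ph_real k G hGd))
    rw [hGk] at h1
    have e : (fun n : ℕ => β * G.eval ((n + Y : ℕ) : ℝ)) = fun n : ℕ => β * G.eval ((Y + n : ℕ) : ℝ) := by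
      funext n
      rw [add_comm]
    rw [← e]
    exact h1
  obtain ⟨q0, hq01, hq02, a, ha⟩ := hI M T _ _ hMn hT1' hPh hbig
  set q : ℕ := q0 * k.factorial with hq
  have hq1 : 1 ≤ q := Nat.mul_pos hq01 (Nat.factorial_pos k)
  have hq1' : (1 : ℝ) ≤ q := by exact_mod_cast hq1
  have hq0 : (q : ℝ) ≠ 0 := by linarith
  have hqT : (q : ℝ) ≤ T ^ A := by
    rw [hq]
    push_cast
    calc (q0 : ℝ) * k.factorial ≤ (c1 * T ^ m1) * k.factorial := by gcongr
      _ = (k.factorial * c1) * T ^ m1 := by ring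
      _ ≤ T * T ^ m1 := mul_le_mul_of_nonneg_right hTc (by positivity)
      _ = T ^ (m1 + 1) := by rw [pow_succ']
      _ ≤ T ^ A := pow_le_pow_right₀ hT1' (by omega)
  have hqβ : |(q : ℝ) * β - a| * T ^ (2 * Q * k) ≤ T ^ A := by
    have h1 : |(q : ℝ) * β - a| ≤ c1 * T ^ m1 / (M : ℝ) ^ k := by
      have e : (q : ℝ) * β - a = q0 * (β * ((k.factorial : ℝ) * 1)) - a := by
        rw [hq]
        push_cast
        ring
      rw [e]
      exact ha
    have h2 : |(q : ℝ) * β - a| ≤ c1 * T ^ m1 / (T ^ (2 * Q - 1)) ^ k := by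
      refine h1.trans ?_
      apply div_le_div_of_nonneg_left (by positivity) (by positivity)
      exact pow_le_pow_left₀ hP1.le hM1 k
    rw [le_div_iff₀ (by positivity)] at h2
    calc |(q : ℝ) * β - a| * T ^ (2 * Q * k) = (|(q : ℝ) * β - a| * (T ^ (2 * Q - 1)) ^ k) * T ^ k := by
          rw [pow_mul T (2 * Q) k, hQT, mul_pow]
          ring
      _ ≤ (c1 * T ^ m1) * T ^ k := mul_le_mul_of_nonneg_right h2 (by positivity)
      _ ≤ (T * T ^ m1) * T ^ k := by gcongr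
      _ = T ^ A := by
          rw [hA, pow_add, pow_add, pow_one]
          ring
  have hk4 : 2 * Q * 2 ≤ 2 * Q * k := Nat.mul_le_mul_left _ (by omega)
  have hbigpow : T ^ (A + Q) < T ^ (2 * Q * k) := pow_lt_pow_right₀ (by linarith) (by omega)
  have ha0 : a ≠ 0 := by
    intro h
    rw [h, Int.cast_zero, sub_zero, abs_mul, abs_of_nonneg (by linarith : (0 : ℝ) ≤ q)] at hqβ
    have h1 : T ^ (2 * Q * k) ≤ T ^ (A + Q) := by
      calc T ^ (2 * Q * k) ≤ (|β| * T ^ Q) * T ^ (2 * Q * k) := le_mul_of_one_le_left (by positivity) hβ1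
        _ ≤ (q * (|β| * T ^ Q)) * T ^ (2 * Q * k) := by
            apply mul_le_mul_of_nonneg_right _ (by positivity)
            exact le_mul_of_one_le_left (by positivity) hq1'
        _ = (q * |β| * T ^ (2 * Q * k)) * T ^ Q := by ring
        _ ≤ T ^ A * T ^ Q := mul_le_mul_of_nonneg_right hqβ (by positivity)
        _ = T ^ (A + Q) := (pow_add T A Q).symm
    exact absurd h1 (not_le.2 hbigpow)
  have hd1 : |(q : ℝ) * β - a| ≤ 1 := by
    have h1 : |(q : ℝ) * β - a| * T ^ (2 * Q * k) ≤ 1 * T ^ (2 * Q * k) := by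
      refine hqβ.trans ?_
      rw [one_mul]
      exact pow_le_pow_right₀ hT1' (by omega)
    exact le_of_mul_le_mul_right h1 (by positivity)
  have haT : |(a : ℝ)| ≤ T ^ (A + 2) := by
    calc |(a : ℝ)| = |(q : ℝ) * β - ((q : ℝ) * β - a)| := by
          congr 1
          ring
      _ ≤ |(q : ℝ) * β| + |(q : ℝ) * β - a| := abs_sub _ _
      _ ≤ T ^ A * T + 1 := by
          rw [abs_mul, abs_of_nonneg (by linarith : (0 : ℝ) ≤ q)]
          apply add_le_add _ hd1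
          exact mul_le_mul hqT hβ2 (abs_nonneg _) (by positivity)
      _ ≤ T ^ A * T + T ^ A * T := by
          apply add_le_add le_rfl
          rw [← pow_succ]
          exact one_le_pow₀ hT1'
      _ = (T ^ A * T) * 2 := by ring
      _ ≤ (T ^ A * T) * T := mul_le_mul_of_nonneg_left hT2 (by positivity)
      _ = T ^ (A + 2) := by ring
  set γ : ℝ := β - a / q with hγ
  have hβγ : β = a / q + γ := by
    rw [hγ]
    ring
  have hγ1 : |γ| * T ^ (2 * Q * k) ≤ T ^ A := by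
    have h1 : |γ| ≤ |(q : ℝ) * β - a| := by
      have e : (q : ℝ) * β - a = q * γ := by
        rw [hγ]
        field_simp
      rw [e, abs_mul, abs_of_nonneg (by linarith : (0 : ℝ) ≤ q)]
      exact le_mul_of_one_le_left (abs_nonneg _) hq1'
    exact (mul_le_mul_of_nonneg_right h1 (by positivity)).trans hqβ
  -- the blocks
  have hP41 : 1 ≤ T ^ (2 * Q - 4 * A) := one_le_pow₀ hT1'
  set W : ℕ := ⌊T ^ (2 * Q - 4 * A)⌋₊ with hW
  have hW1 : 1 ≤ W := Nat.le_floor (by rw [Nat.cast_one]; exact hP41)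
  have hWle : (W : ℝ) ≤ T ^ (2 * Q - 4 * A) := Nat.floor_le (by positivity)
  have hWge : T ^ (2 * Q - 4 * A) ≤ 2 * W := by
    have h1 : T ^ (2 * Q - 4 * A) < W + 1 := Nat.lt_floor_add_one _
    have h2 : (1 : ℝ) ≤ W := by exact_mod_cast hW1
    linarith
  have hpr := hprog T hTT1 q a hq1 hqT ha0 haT W hW1 hWge
  have hL : ((q * W : ℕ) : ℝ) ≤ T ^ (2 * Q - 3 * A) := by
    push_cast
    calc (q : ℝ) * W ≤ T ^ A * T ^ (2 * Q - 4 * A) := by gcongr
      _ = _ := by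
          rw [← pow_add]
          congr 1
          omega
  have hLpos : 1 ≤ q * W := Nat.mul_pos hq1 hW1
  have hblk : ∀ z0 : ℕ, ((z0 + q * W : ℕ) : ℝ) ≤ 65 * T ^ (2 * Q) →
      ‖∑ n ∈ range (q * W), ee (β * G.eval ((z0 + n : ℕ) : ℝ))‖ ≤ 2 * ((q * W : ℕ) : ℝ) / T := by
    intro z0 hz
    apply blk k R hq1 hβγ hpr
    intro n hn
    have hnL : (n : ℝ) ≤ ((q * W : ℕ) : ℝ) := by exact_mod_cast hn.le
    have h65 : (1 : ℝ) ≤ 65 * T ^ (2 * Q) := by
      have : (1 : ℝ) ≤ T ^ (2 * Q) := one_le_pow₀ hT1'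
      linarith
    have hz1 : ((z0 + n : ℕ) : ℝ) ≤ 65 * T ^ (2 * Q) := by
      refine le_trans ?_ hz
      exact_mod_cast (show z0 + n ≤ z0 + q * W by omega)
    have hz2 : (z0 : ℝ) ≤ 65 * T ^ (2 * Q) := by
      refine le_trans ?_ hz
      exact_mod_cast (show z0 ≤ z0 + q * W by omega)
    have h1 := hK (65 * T ^ (2 * Q)) h65 ((z0 + n : ℕ) : ℝ) (z0 : ℝ) (Nat.cast_nonneg _) hz1 (Nat.cast_nonneg _) hz2
    have e : ((z0 + n : ℕ) : ℝ) - z0 = n := by
      push_cast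
      ring
    rw [e, abs_of_nonneg (Nat.cast_nonneg n : (0 : ℝ) ≤ (n : ℝ))] at h1
    have hnT : (n : ℝ) ≤ T ^ (2 * Q - 3 * A) := hnL.trans hL
    have e3 : 2 * Q * (k - 1) + (2 * Q - 3 * A) + 2 * A + A = 2 * Q * k := by
      obtain ⟨i, hi⟩ : ∃ i, k = i + 1 := ⟨k - 1, by omega⟩
      have h2 : 2 * Q * (i + 1) = 2 * Q * i + 2 * Q := by ring
      have h3 : k - 1 = i := by omega
      rw [h3]
      have h4 : 2 * Q * k = 2 * Q * (i + 1) := by rw [hi]
      omega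
    have e2 : |γ| * (T ^ (2 * Q)) ^ (k - 1) * T ^ (2 * Q - 3 * A) * T ^ (2 * A) * T ^ A = |γ| * T ^ (2 * Q * k) := by
      rw [← e3, pow_add, pow_add, pow_add, pow_mul]
      ring
    have h6 : |γ| * (T ^ (2 * Q)) ^ (k - 1) * T ^ (2 * Q - 3 * A) * T ^ (2 * A) ≤ 1 := by
      have h7 : |γ| * (T ^ (2 * Q)) ^ (k - 1) * T ^ (2 * Q - 3 * A) * T ^ (2 * A) * T ^ A ≤ 1 * T ^ A := by
        rw [e2, one_mul]
        exact hγ1
      exact le_of_mul_le_mul_right h7 (by positivity)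
    calc 2 * Real.pi * (|γ| * |G.eval ((z0 + n : ℕ) : ℝ) - G.eval (z0 : ℝ)|)
        ≤ 2 * Real.pi * (|γ| * (K * (65 * T ^ (2 * Q)) ^ (k - 1) * n)) := by gcongr
      _ ≤ 2 * Real.pi * (|γ| * (K * (65 * T ^ (2 * Q)) ^ (k - 1) * T ^ (2 * Q - 3 * A))) := by gcongr
      _ = (2 * Real.pi * K * 65 ^ (k - 1)) * (|γ| * (T ^ (2 * Q)) ^ (k - 1) * T ^ (2 * Q - 3 * A)) := by
          rw [mul_pow]
          ring
      _ ≤ T * (|γ| * (T ^ (2 * Q)) ^ (k - 1) * T ^ (2 * Q - 3 * A)) := mul_le_mul_of_nonneg_right hTK (by positivity)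
      _ ≤ T * (1 / T ^ (2 * A)) := by
          apply mul_le_mul_of_nonneg_left _ hT0.le
          rw [le_div_iff₀ (by positivity)]
          exact h6
      _ ≤ T * (1 / T ^ 2) := by
          apply mul_le_mul_of_nonneg_left _ hT0.le
          apply one_div_le_one_div_of_le (by positivity)
          exact pow_le_pow_right₀ hT1' (by omega)
      _ = 1 / T := by field_simp
  set L : ℕ := q * W with hLdef
  have hb : ((M / L : ℕ) : ℝ) * L ≤ M := by
    exact_mod_cast Nat.div_mul_le_self M L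
  have hs1 : ‖∑ n ∈ range ((M / L) * L), ee (β * G.eval ((Y + n : ℕ) : ℝ))‖ ≤ (M / L : ℕ) * (2 * (L : ℝ) / T) := by
    apply blocks (fun n : ℕ => ee (β * G.eval ((Y + n : ℕ) : ℝ)))
    intro i hi
    have hiL : i * L + L ≤ M := by
      have h2 : (i + 1) * L ≤ (M / L) * L := Nat.mul_le_mul_right L hi
      have h3 := Nat.div_mul_le_self M L
      calc i * L + L = (i + 1) * L := by ring
        _ ≤ M := h2.trans h3
    have h4 := hblk (Y + i * L) (by
      have h5 : ((i * L + L : ℕ) : ℝ) ≤ M := by exact_mod_cast hiL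
      push_cast at h5 ⊢
      linarith)
    have e1 : ∀ n : ℕ, Y + i * L + n = Y + (i * L + n) := fun n => by ring
    simp only [e1] at h4
    exact h4
  have hs2 : ‖∑ n ∈ range (M % L), ee (β * G.eval ((Y + (M / L * L + n) : ℕ) : ℝ))‖ ≤ L := by
    refine (norm_sum_le _ _).trans ?_
    simp only [ee_norm, sum_const, card_range, nsmul_eq_mul, mul_one]
    exact_mod_cast (Nat.mod_lt M (by omega)).le
  have htot : ‖∑ n ∈ range M, ee (β * G.eval ((Y + n : ℕ) : ℝ))‖ ≤ (M / L : ℕ) * (2 * (L : ℝ) / T) + L := by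
    have hsplit : range M = range ((M / L) * L + M % L) := by rw [Nat.div_add_mod']
    rw [hsplit, sum_range_add]
    exact (norm_add_le _ _).trans (add_le_add hs1 hs2)
  have hfin : ((M / L : ℕ) : ℝ) * (2 * (L : ℝ) / T) + L ≤ 123 * T ^ (2 * Q - 1) := by
    calc ((M / L : ℕ) : ℝ) * (2 * (L : ℝ) / T) + L = 2 / T * (((M / L : ℕ) : ℝ) * L) + L := by ring
      _ ≤ 2 / T * (61 * (T * T ^ (2 * Q - 1))) + T ^ (2 * Q - 1) := by
          apply add_le_add
          · apply mul_le_mul_of_nonneg_left _ (by positivity)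
            rw [← hQT]
            exact hb.trans hM
          · exact hL.trans (pow_le_pow_right₀ hT1' (by omega))
      _ = 123 * T ^ (2 * Q - 1) := by
          field_simp
          ring
  linarith

/-- **Exponential sums with `β (z ^ k + R (z))`, small `β`.** -/
theorem t_POL (k j : ℕ) (hj : 1 ≤ j) (hjk : j < k) (R : Polynomial ℝ) (hR : R.natDegree = j) {c : ℝ} (hc : 0 < c)
    (hDC : Pool.Agent.J4H7.WL.DC c R.leadingCoeff) :
    ∃ η : ℝ, 0 < η ∧ ∃ σ : ℝ, 0 < σ ∧ σ ≤ 1 ∧ ∃ C : ℝ, 1 ≤ C ∧ ∃ X0 : ℝ, 2 ≤ X0 ∧ ∀ X : ℝ, X0 ≤ X → ∀ β : ℝ,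
      X ^ (-(1 / 2 : ℝ)) ≤ |β| → |β| ≤ X ^ η → ∀ Y M : ℕ, 4 * X ≤ Y → (Y : ℝ) + M ≤ 64 * X + 1 →
        ‖∑ n ∈ Finset.range M, ee (β * (((Y : ℝ) + n) ^ k + R.eval ((Y : ℝ) + n)))‖ ≤ C * X ^ (1 - σ) := by
  obtain ⟨Q, T0, hQ, hT0, H⟩ := core k j hj hjk R hR hc hDC
  have hQ' : (1 : ℝ) ≤ Q := by exact_mod_cast hQ
  set e : ℝ := 1 / (2 * (Q : ℝ)) with he
  have he0 : 0 < e := by positivity
  refine ⟨e, he0, e, he0, by rw [he, div_le_one (by positivity)]; linarith, 123, by norm_num, T0 ^ (2 * Q), ?_, ?_⟩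
  · calc (2 : ℝ) ≤ T0 := hT0
      _ ≤ T0 ^ (2 * Q) := le_self_pow₀ (by linarith) (by omega)
  intro X hX β hβ1 hβ2 Y M hY hM
  have hX1 : 1 ≤ X := (one_le_pow₀ (by linarith)).trans hX
  have hX0 : 0 < X := by linarith
  set T : ℝ := X ^ e with hT
  have hTX : T ^ (2 * Q) = X := by
    rw [hT, ← Real.rpow_natCast, ← Real.rpow_mul hX0.le]
    have : e * ((2 * Q : ℕ) : ℝ) = 1 := by
      rw [he]
      push_cast
      field_simp
    rw [this, Real.rpow_one]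
  have hT0' : 0 < T := Real.rpow_pos_of_pos hX0 _
  have hTT0 : T0 ≤ T := by
    by_contra h
    push Not at h
    have := pow_lt_pow_left₀ h hT0'.le (by omega : 2 * Q ≠ 0)
    rw [hTX] at this
    linarith
  have hTQ : T ^ Q = X ^ (1 / 2 : ℝ) := by
    rw [hT, ← Real.rpow_natCast, ← Real.rpow_mul hX0.le]
    congr 1
    rw [he]
    field_simp
  have h1 : 1 ≤ |β| * T ^ Q := by
    rw [hTQ]
    calc (1 : ℝ) = X ^ (-(1 / 2 : ℝ)) * X ^ (1 / 2 : ℝ) := by
          rw [← Real.rpow_add hX0]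
          simp
      _ ≤ _ := mul_le_mul_of_nonneg_right hβ1 (Real.rpow_nonneg hX0.le _)
  have h2 := H T hTT0 β h1 hβ2 Y M (by rw [hTX]; linarith) (by rw [hTX]; linarith)
  have h3 : T ^ (2 * Q - 1) = X ^ (1 - e) := by
    have h4 : T ^ (2 * Q - 1) * T = X ^ (1 - e) * T := by
      rw [← pow_succ, show 2 * Q - 1 + 1 = 2 * Q by omega, hTX, hT, ← Real.rpow_add hX0]
      simp
    exact mul_right_cancel₀ hT0'.ne' h4
  rw [h3] at h2
  refine le_trans (le_of_eq ?_) h2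
  congr 1
  apply sum_congr rfl
  intro n _
  congr 2
  simp only [Polynomial.eval_add, Polynomial.eval_pow, Polynomial.eval_X]
  push_cast
  ring

end Pool.Agent.J4H30.WS
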