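import Pool.Agent.J4H30.WR.Esb
import Pool.Agent.J4H7.WL.D

set_option autoImplicit false

/-!
# Exponential sums with `β (z ^ k + R (z))`, `R` a real polynomial of lower degree, small `β`: part A (helper30)
-/

namespace Pool.Agent.J4H30.WS

open Finset Polynomial
open Pool.Agent.J4H7.WE (ee_add ee_int)
open Pool.Agent.Helper153.Vdc (ee ee_norm)
open Pool.Agent.H373R2.NB (Ph IW IW_all Ph_poly)
open Pool.Agent.J4H30.WR (Ph_add Ph_zero Ph_sum ee_sub_le blocks)

lemma Ph_mul (d : ℕ) : ∀ (b a : ℝ) (φ : ℕ → ℝ), Ph d a φ → Ph d (b * a) (fun n => b * φ n) := by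
  induction d with
  | zero =>
    intro b a φ h n
    show b * φ n = b * a
    rw [h n]
  | succ d ih =>
    intro b a φ h i
    have h1 := ih b _ _ (h i)
    show Ph d (i * (b * a)) (fun n => b * φ (n + i) - b * φ n)
    have e : (fun n => b * φ (n + i) - b * φ n) = fun n => b * (φ (n + i) - φ n) := by
      funext n
      ring
    rw [e, mul_left_comm]
    exact h1

lemma Ph_shift (d : ℕ) : ∀ (s : ℕ) (a : ℝ) (φ : ℕ → ℝ), Ph d a φ → Ph d a (fun n => φ (n + s)) := by
  induction d with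
  | zero => intro s a φ h n; exact h (n + s)
  | succ d ih =>
    intro s a φ h i
    have h1 := ih s _ _ (h i)
    show Ph d (i * a) (fun n => φ (n + i + s) - φ (n + s))
    have e : (fun n => φ (n + i + s) - φ (n + s)) = fun n => φ (n + s + i) - φ (n + s) := by
      funext n
      rw [add_right_comm]
    rw [e]
    exact h1

lemma Ph_dil (d : ℕ) : ∀ (q : ℕ) (a : ℝ) (φ : ℕ → ℝ), Ph d a φ → Ph d ((q : ℝ) ^ d * a) (fun n => φ (q * n)) := by
  induction d with
  | zero => intro q a φ h n; show φ (q * n) = _; rw [h, pow_zero, one_mul]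
  | succ d ih =>
    intro q a φ h i
    have h1 := ih q _ _ (h (q * i))
    show Ph d (i * ((q : ℝ) ^ (d + 1) * a)) (fun n => φ (q * (n + i)) - φ (q * n))
    have e : (fun n => φ (q * (n + i)) - φ (q * n)) = fun n => φ (q * n + q * i) - φ (q * n) := by
      funext n
      rw [mul_add]
    have e2 : (i : ℝ) * ((q : ℝ) ^ (d + 1) * a) = (q : ℝ) ^ d * (((q * i : ℕ) : ℝ) * a) := by
      push_cast
      ring
    rw [e, e2]
    exact h1

lemma Ph_real (d : ℕ) (P : ℝ[X]) (hP : P.natDegree ≤ d) :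
    Ph d ((d.factorial : ℝ) * P.coeff d) (fun n : ℕ => P.eval (n : ℝ)) := by
  have h2 : Ph d (∑ i ∈ range (d + 1), if i = d then (d.factorial : ℝ) * P.coeff d else 0)
      (fun n : ℕ => ∑ i ∈ range (d + 1), P.coeff i * (n : ℝ) ^ i) := by
    apply Ph_sum
    intro i hi
    have h3 := Ph_poly d (X ^ i) (by rw [natDegree_X_pow]; omega) (P.coeff i)
    have e : (fun n : ℕ => P.coeff i * (((X ^ i : ℤ[X]).eval (n : ℤ) : ℤ) : ℝ)) =
        fun n : ℕ => P.coeff i * (n : ℝ) ^ i := by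
      funext n
      rw [eval_pow, eval_X]
      push_cast
      ring
    rw [e, coeff_X_pow] at h3
    by_cases hid : i = d
    · subst hid
      rw [if_pos rfl]
      rw [if_pos rfl] at h3
      have e2 : P.coeff i * ((i.factorial : ℝ) * ((1 : ℤ) : ℝ)) = (i.factorial : ℝ) * P.coeff i := by
        push_cast
        ring
      rw [e2] at h3
      exact h3
    · rw [if_neg hid]
      rw [if_neg (fun h => hid h.symm)] at h3
      simpa using h3
  rw [sum_ite_eq' (range (d + 1)) d, if_pos (mem_range.2 (Nat.lt_succ_self d))] at h2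
  have e : (fun n : ℕ => P.eval (n : ℝ)) = fun n : ℕ => ∑ i ∈ range (d + 1), P.coeff i * (n : ℝ) ^ i := by
    funext n
    exact eval_eq_sum_range' (by omega) _
  rw [e]
  exact h2

lemma lip_poly (P : ℝ[X]) (k : ℕ) (hP : P.natDegree ≤ k) : ∃ K : ℝ, 0 ≤ K ∧ ∀ T : ℝ, 1 ≤ T →
    ∀ x y : ℝ, 0 ≤ x → x ≤ T → 0 ≤ y → y ≤ T → |P.eval x - P.eval y| ≤ K * T ^ (k - 1) * |x - y| := by
  refine ⟨∑ i ∈ range (k + 1), |P.coeff i| * i, sum_nonneg fun i _ => by positivity, ?_⟩
  intro T hT x y hx hxT hy hyT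
  rw [eval_eq_sum_range' (n := k + 1) (by omega), eval_eq_sum_range' (n := k + 1) (by omega), ← sum_sub_distrib,
    sum_mul, sum_mul]
  refine (abs_sum_le_sum_abs _ _).trans (sum_le_sum fun i hi => ?_)
  rw [← mul_sub, abs_mul]
  have h1 := abs_pow_sub_pow_le x y i
  have h2 : max |x| |y| ≤ T := max_le (by rwa [abs_of_nonneg hx]) (by rwa [abs_of_nonneg hy])
  have h3 : max |x| |y| ^ (i - 1) ≤ T ^ (k - 1) :=
    (pow_le_pow_left₀ (le_max_of_le_left (abs_nonneg x)) h2 _).trans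
      (pow_le_pow_right₀ hT (by have := mem_range.1 hi; omega))
  calc |P.coeff i| * |x ^ i - y ^ i| ≤ |P.coeff i| * (|x - y| * i * max |x| |y| ^ (i - 1)) :=
        mul_le_mul_of_nonneg_left h1 (abs_nonneg _)
    _ ≤ |P.coeff i| * (|x - y| * i * T ^ (k - 1)) := by gcongr
    _ = |P.coeff i| * i * T ^ (k - 1) * |x - y| := by ring

lemma sum_prog (q : ℕ) (f : ℕ → ℂ) (W : ℕ) :
    ∑ n ∈ range (q * W), f n = ∑ i ∈ range q, ∑ w ∈ range W, f (q * w + i) := by
  induction W with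
  | zero => simp
  | succ W ih =>
    rw [Nat.mul_succ, sum_range_add, ih, ← sum_add_distrib]
    apply sum_congr rfl
    intro i _
    rw [sum_range_succ]

/-- the phase `(a / q) z ^ k` is constant modulo `1` on a progression modulo `q` -/
lemma ee_prog (a : ℤ) (q r w k : ℕ) (hq : 1 ≤ q) (x : ℝ) :
    ee ((a / q : ℝ) * ((q * w + r : ℕ) : ℝ) ^ k + x) = ee ((a / q : ℝ) * (r : ℝ) ^ k + x) := by
  have h1 : (q : ℤ) ∣ ((q * w + r : ℕ) : ℤ) ^ k - (r : ℤ) ^ k := by
    refine dvd_trans ?_ (sub_dvd_pow_sub_pow _ _ k)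
    push_cast
    exact ⟨w, by ring⟩
  obtain ⟨m, hm⟩ := h1
  have hq0 : (q : ℝ) ≠ 0 := by
    have : 0 < q := hq
    exact_mod_cast this.ne'
  have hm' : ((q * w + r : ℕ) : ℝ) ^ k - (r : ℝ) ^ k = q * m := by
    have := congrArg (fun z : ℤ => (z : ℝ)) hm
    push_cast at this ⊢
    exact this
  have e : (a / q : ℝ) * ((q * w + r : ℕ) : ℝ) ^ k + x = ((a / q : ℝ) * (r : ℝ) ^ k + x) + ((a * m : ℤ) : ℝ) := by
    have : ((q * w + r : ℕ) : ℝ) ^ k = (r : ℝ) ^ k + q * m := by linarith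
    rw [this]
    push_cast
    field_simp
    ring
  rw [e, ee_add, ee_int, mul_one]

end Pool.Agent.J4H30.WS
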