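import Mathlib

set_option autoImplicit false

/-!
# The volume of a slab in a box (helper30, for helper7)
-/

namespace Pool.Agent.J4H30.WS

open MeasureTheory Set

lemma vol_slice (a b t : ℝ) (hb : b ≠ 0) :
    volume {x : ℝ | |a + x * b| ≤ t} ≤ ENNReal.ofReal (2 * t / |b|) := by
  have h : {x : ℝ | |a + x * b| ≤ t} ⊆ Set.Icc (-a / b - t / |b|) (-a / b + t / |b|) := by
    intro x hx
    have hx' : |a + x * b| ≤ t := hx
    have h1 : |x - (-a / b)| ≤ t / |b| := by
      rw [le_div_iff₀ (abs_pos.2 hb), ← abs_mul]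
      have : (x - -a / b) * b = a + x * b := by
        field_simp
        ring
      rw [this]
      exact hx'
    rw [abs_le] at h1
    constructor <;> linarith
  refine (measure_mono h).trans ?_
  rw [Real.volume_Icc]
  apply le_of_eq
  congr 1
  ring

lemma vol_form {n : ℕ} (c t L : ℝ) (b : Fin (n + 1) → ℝ) (i0 : Fin (n + 1)) (hb : b i0 ≠ 0) (hL : 0 ≤ L) (ht : 0 ≤ t) :
    MeasureTheory.volume {α : Fin (n + 1) → ℝ | (∀ i, α i ∈ Set.Icc 0 L) ∧ |c + ∑ i, α i * b i| ≤ t} ≤
      ENNReal.ofReal (2 * t / |b i0| * L ^ n) := by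
  have hmp := volume_preserving_piFinSuccAbove (fun _ : Fin (n + 1) => ℝ) i0
  set S' : Set (ℝ × (Fin n → ℝ)) := {p | p.2 ∈ Set.univ.pi (fun _ => Set.Icc 0 L) ∧
    |c + (p.1 * b i0 + ∑ j, p.2 j * b (i0.succAbove j))| ≤ t} with hS'
  have hbox : MeasurableSet (Set.univ.pi (fun _ : Fin n => Set.Icc (0 : ℝ) L)) :=
    MeasurableSet.univ_pi fun _ => measurableSet_Icc
  have hmeas : MeasurableSet S' := by
    have h2 : MeasurableSet {p : ℝ × (Fin n → ℝ) | |c + (p.1 * b i0 + ∑ j, p.2 j * b (i0.succAbove j))| ≤ t} :=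
      measurableSet_le (by fun_prop) measurable_const
    exact (measurable_snd hbox).inter h2
  have hsub : {α : Fin (n + 1) → ℝ | (∀ i, α i ∈ Set.Icc 0 L) ∧ |c + ∑ i, α i * b i| ≤ t} ⊆
      (MeasurableEquiv.piFinSuccAbove (fun _ : Fin (n + 1) => ℝ) i0) ⁻¹' S' := by
    intro α hα
    obtain ⟨h1, h2⟩ := hα
    refine ⟨fun j _ => h1 _, ?_⟩
    rw [Fin.sum_univ_succAbove _ i0] at h2
    exact h2
  calc MeasureTheory.volume {α : Fin (n + 1) → ℝ | (∀ i, α i ∈ Set.Icc 0 L) ∧ |c + ∑ i, α i * b i| ≤ t}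
      ≤ volume ((MeasurableEquiv.piFinSuccAbove (fun _ : Fin (n + 1) => ℝ) i0) ⁻¹' S') := measure_mono hsub
    _ = volume S' := hmp.measure_preimage hmeas.nullMeasurableSet
    _ = ∫⁻ y, volume ((fun x => (x, y)) ⁻¹' S') := by
        rw [Measure.volume_eq_prod, Measure.prod_apply_symm hmeas]
    _ ≤ ∫⁻ y, (Set.univ.pi (fun _ : Fin n => Set.Icc (0 : ℝ) L)).indicator
          (fun _ => ENNReal.ofReal (2 * t / |b i0|)) y := by
        apply lintegral_mono
        intro y
        show volume ((fun x => (x, y)) ⁻¹' S') ≤ (Set.univ.pi (fun _ : Fin n => Set.Icc (0 : ℝ) L)).indicator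
          (fun _ => ENNReal.ofReal (2 * t / |b i0|)) y
        by_cases hy : y ∈ Set.univ.pi (fun _ : Fin n => Set.Icc (0 : ℝ) L)
        · rw [Set.indicator_of_mem hy]
          refine (measure_mono ?_).trans (vol_slice (c + ∑ j, y j * b (i0.succAbove j)) (b i0) t hb)
          intro x hx
          have h3 : |c + (x * b i0 + ∑ j, y j * b (i0.succAbove j))| ≤ t := hx.2
          show |c + ∑ j, y j * b (i0.succAbove j) + x * b i0| ≤ t
          have e : c + ∑ j, y j * b (i0.succAbove j) + x * b i0 = c + (x * b i0 + ∑ j, y j * b (i0.succAbove j)) := by ring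
          rw [e]
          exact h3
        · rw [Set.indicator_of_notMem hy]
          have : (fun x : ℝ => (x, y)) ⁻¹' S' = ∅ := by
            ext x
            simp only [mem_preimage, mem_empty_iff_false, iff_false]
            exact fun hx => hy hx.1
          rw [this, measure_empty]
    _ = ENNReal.ofReal (2 * t / |b i0|) * volume (Set.univ.pi (fun _ : Fin n => Set.Icc (0 : ℝ) L)) := by
        rw [lintegral_indicator_const hbox]
    _ = ENNReal.ofReal (2 * t / |b i0|) * ENNReal.ofReal (L ^ n) := by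
        congr 1
        rw [volume_pi, Measure.pi_pi]
        simp only [Real.volume_Icc, sub_zero, Finset.prod_const, Finset.card_univ, Fintype.card_fin]
        rw [ENNReal.ofReal_pow hL]
    _ = ENNReal.ofReal (2 * t / |b i0| * L ^ n) := by
        rw [ENNReal.ofReal_mul (by positivity)]

end Pool.Agent.J4H30.WS
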